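import Pool.Agent.K4W.StmtsP
import Pool.Agent.Helper20_HUA.Hmt

/-!
# K4W row POI: Poisson summation for theta
-/

set_option autoImplicit false

namespace Pool.Agent.K4W.H88

open Complex
open Pool.Agent.K4W
open Pool.Agent.Helper69_Weyl (ee W ee_add ee_int norm_ee)

/-- a sum over the integers is the sum over the residue classes -/
theorem tsum_classes (r : ℕ) (hr : 0 < r) (F : ℤ → ℂ) (hF : Summable F) :
    ∑' s : ℤ, F s = ∑ c ∈ Finset.range r, ∑' k : ℤ, F ((c : ℤ) + (r : ℤ) * k) := by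
  have : NeZero r := ⟨hr.ne'⟩
  have h1 : ∑' p : ℤ × Fin r, F ((Int.divModEquiv r).symm p) = ∑' s : ℤ, F s :=
    (Int.divModEquiv r).symm.tsum_eq F
  have hs : Summable fun p : ℤ × Fin r => F ((Int.divModEquiv r).symm p) :=
    (Int.divModEquiv r).symm.summable_iff.mpr hF
  have hs' : Summable fun p : Fin r × ℤ => F ((Int.divModEquiv r).symm p.swap) :=
    (Equiv.prodComm (Fin r) ℤ).summable_iff.mpr hs
  have h2 : ∑' p : Fin r × ℤ, F ((Int.divModEquiv r).symm p.swap) =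
      ∑' p : ℤ × Fin r, F ((Int.divModEquiv r).symm p) :=
    (Equiv.prodComm (Fin r) ℤ).tsum_eq (fun p : ℤ × Fin r => F ((Int.divModEquiv r).symm p))
  rw [← h1, ← h2, hs'.tsum_prod, tsum_fintype, Finset.sum_range]
  refine Finset.sum_congr rfl fun c _ => tsum_congr fun k => ?_
  rw [Prod.swap_prod_mk, Int.divModEquiv_symm_apply]
  congr 1
  ring

/-- the terms of the theta sum -/
theorem term_eq (N r : ℕ) (a : ℤ) (γ : ℝ) (hN : 0 < N) (s : ℤ) :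
    (ga N (2 * (s : ℝ)) : ℂ) * ee (((a : ℝ) / (r : ℝ) + γ) * (s : ℝ) ^ 2) =
      ee (((a * s ^ 2 : ℤ) : ℝ) / (r : ℝ)) * cexp (-((Real.pi : ℂ) * Ag N γ * (s : ℂ) ^ 2)) := by
  have hN0 : (N : ℂ) ≠ 0 := by exact_mod_cast hN.ne'
  have e1 : ((a : ℝ) / (r : ℝ) + γ) * (s : ℝ) ^ 2 =
      ((a * s ^ 2 : ℤ) : ℝ) / (r : ℝ) + γ * (s : ℝ) ^ 2 := by
    push_cast
    ring
  rw [e1, ee_add]
  have e2 : (ga N (2 * (s : ℝ)) : ℂ) * ee (γ * (s : ℝ) ^ 2) =
      cexp (-((Real.pi : ℂ) * Ag N γ * (s : ℂ) ^ 2)) := by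
    unfold ga ee Ag
    rw [Complex.ofReal_exp, ← Complex.exp_add]
    congr 1
    push_cast
    field_simp
    ring
  rw [← e2]
  ring

theorem ag_re (N : ℕ) (γ : ℝ) (hN : 0 < N) : 0 < (Ag N γ).re := by
  have hN0 : (0 : ℝ) < N := by exact_mod_cast hN
  have : (Ag N γ).re = 4 / (N : ℝ) ^ 2 := by
    unfold Ag
    rw [Complex.sub_re, Complex.ofReal_re]
    simp
  rw [this]
  positivity

theorem inv_re {z : ℂ} (hz : 0 < z.re) : 0 < (1 / z).re := by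
  rw [one_div, Complex.inv_re]
  have h0 : z ≠ 0 := by
    intro h
    rw [h] at hz
    simp at hz
  have := Complex.normSq_pos.mpr h0
  positivity

theorem poi (hPRG : PrgStmt) (hGSC : GscStmt) : PoiStmt := by
  intro N r a γ hN hr
  have hA := ag_re N γ hN
  have hr0 : (0 : ℝ) < r := by exact_mod_cast hr
  have hrC : (r : ℂ) ≠ 0 := by exact_mod_cast hr.ne'
  have hA0 : Ag N γ ≠ 0 := by
    intro h
    rw [h] at hA
    simp at hA
  set A := Ag N γ with hAdef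
  -- the terms
  have hF : Summable fun s : ℤ =>
      ee (((a * s ^ 2 : ℤ) : ℝ) / (r : ℝ)) * cexp (-((Real.pi : ℂ) * A * (s : ℂ) ^ 2)) := by
    have h1 := hGSC A hA 0 1 one_pos
    apply Summable.of_norm
    refine h1.congr fun s => ?_
    rw [norm_mul, norm_ee, one_mul]
    simp
  have hE : ∀ c : ℕ, Summable fun m : ℤ => ee (((m * (c : ℤ) : ℤ) : ℝ) / (r : ℝ)) *
      cexp (-((Real.pi : ℂ) * (m : ℂ) ^ 2 / ((r : ℂ) ^ 2 * A))) := by
    intro c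
    have hB : 0 < (1 / ((r : ℂ) ^ 2 * A)).re := by
      apply inv_re
      have : ((r : ℂ) ^ 2 * A).re = (r : ℝ) ^ 2 * A.re := by
        have h2 : ((r : ℂ) ^ 2 * A) = (((r : ℝ) ^ 2 : ℝ) : ℂ) * A := by push_cast; ring
        rw [h2, Complex.re_ofReal_mul]
      rw [this]
      positivity
    have h1 := hGSC _ hB 0 1 one_pos
    apply Summable.of_norm
    refine h1.congr fun m => ?_
    rw [norm_mul, norm_ee, one_mul]
    congr 2
    push_cast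
    field_simp
    ring
  unfold th
  rw [tsum_congr fun s : ℤ => term_eq N r a γ hN s, tsum_classes r hr _ hF]
  have hc : ∀ c ∈ Finset.range r, ∑' k : ℤ,
      ee (((a * ((c : ℤ) + (r : ℤ) * k) ^ 2 : ℤ) : ℝ) / (r : ℝ)) *
        cexp (-((Real.pi : ℂ) * A * ((((c : ℤ) + (r : ℤ) * k : ℤ) : ℤ) : ℂ) ^ 2)) =
      ∑' m : ℤ, (ee (((a * (c : ℤ) ^ 2 : ℤ) : ℝ) / (r : ℝ)) * ((1 / (r : ℂ)) * A ^ (-(1 / 2) : ℂ))) *
        (ee (((m * (c : ℤ) : ℤ) : ℝ) / (r : ℝ)) *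
        cexp (-((Real.pi : ℂ) * (m : ℂ) ^ 2 / ((r : ℂ) ^ 2 * A)))) := by
    intro c _
    rw [tsum_mul_left, mul_assoc, ← hPRG A r (c : ℤ) hA hr, ← tsum_mul_left]
    refine tsum_congr fun k => ?_
    rw [VM.H20.ee_cong r hr (a * ((c : ℤ) + (r : ℤ) * k) ^ 2) (a * (c : ℤ) ^ 2)
      ⟨a * (2 * c * k + r * k ^ 2), by ring⟩]
    push_cast
    rfl
  rw [Finset.sum_congr rfl hc, ← Summable.tsum_finsetSum (fun c _ => (hE c).mul_left _)]
  refine tsum_congr fun m => ?_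
  have hpow : (((r : ℝ) ^ (-(1 / 2) : ℝ) : ℝ) : ℂ) * (((r : ℝ) ^ (-(1 / 2) : ℝ) : ℝ) : ℂ) =
      1 / (r : ℂ) := by
    rw [← Complex.ofReal_mul, ← Real.rpow_add hr0]
    norm_num
    rw [Real.rpow_neg_one]
    push_cast
    rfl
  unfold GS cf
  rw [Finset.mul_sum, Finset.sum_mul]
  refine Finset.sum_congr rfl fun c _ => ?_
  have e1 : (((a * (c : ℤ) ^ 2 + m * (c : ℤ) : ℤ) : ℝ) / (r : ℝ)) =
      (((a * (c : ℤ) ^ 2 : ℤ) : ℝ) / (r : ℝ)) + (((m * (c : ℤ) : ℤ) : ℝ) / (r : ℝ)) := by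
    push_cast
    ring
  rw [e1, ee_add, ← hAdef, ← hpow]
  ring

end Pool.Agent.K4W.H88
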