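import Pool.Agent.K4W.StmtsU

/-!
# K4W row UFN: the amplified inequality
-/

set_option autoImplicit false

namespace Pool.Agent.K4W.H88

open Pool.Agent.K4W
open Pool.Agent.Helper69_Weyl (ee W)

theorem ga_nonneg (N : ℕ) (x : ℝ) : 0 ≤ ga N x := (Real.exp_pos _).le

theorem ga_le_one (N : ℕ) (x : ℝ) : ga N x ≤ 1 := by
  unfold ga
  rw [Real.exp_le_one_iff]
  have : 0 ≤ Real.pi * x ^ 2 / (N : ℝ) ^ 2 := by positivity
  linarith

/-- a summable family over the pairs, split by a finite set -/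
theorem split_box {F : ℤ × ℤ → ℂ} (hF : Summable fun p => ‖F p‖) (B : Finset (ℤ × ℤ)) :
    ∑' p, F p = ∑ p ∈ B, F p + ∑' p, (if p ∈ B then 0 else F p) := by
  classical
  have hs : Summable F := hF.of_norm
  have h1 : Summable fun p => if p ∈ B then 0 else F p := by
    apply Summable.of_norm
    refine Summable.of_nonneg_of_le (fun _ => norm_nonneg _) (fun p => ?_) hF
    split_ifs
    · simp
    · exact le_refl _
  have h2 : Summable fun p => if p ∈ B then F p else 0 :=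
    summable_of_ne_finset_zero (s := B) (fun p hp => if_neg hp)
  have h3 : ∑' p, (if p ∈ B then F p else 0) = ∑ p ∈ B, F p := by
    rw [tsum_eq_sum (s := B) (fun p hp => if_neg hp)]
    exact Finset.sum_congr rfl fun p hp => if_pos hp
  rw [← h3, ← h2.tsum_add h1]
  refine tsum_congr fun p => ?_
  split_ifs <;> simp

/-- the numerical part -/
theorem num_bound {N : ℕ} (hN : 1 ≤ N) {z : ℝ}
    (h : 10 ^ 9 * (N : ℝ) ^ 4 * Real.exp (-(z ^ 2 / 8)) ≤ 1) :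
    200 * (N : ℝ) * (400 * (N : ℝ) + 160000 * (N : ℝ) ^ 2 * Real.exp (-(2 * Real.pi * z ^ 2))) ≤
      80001 * (N : ℝ) ^ 2 := by
  have hN1 : (1 : ℝ) ≤ N := by exact_mod_cast hN
  have hpi : (3 : ℝ) < Real.pi := Real.pi_gt_three
  have he : Real.exp (-(2 * Real.pi * z ^ 2)) ≤ Real.exp (-(z ^ 2 / 8)) := by
    apply Real.exp_le_exp.mpr
    nlinarith [sq_nonneg z]
  set E := Real.exp (-(z ^ 2 / 8)) with hE
  have hE0 : 0 ≤ E := (Real.exp_pos _).le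
  have h1 : (N : ℝ) ^ 3 * E ≤ (N : ℝ) ^ 4 * E := by
    apply mul_le_mul_of_nonneg_right _ hE0
    nlinarith [pow_nonneg (by linarith : (0 : ℝ) ≤ N) 3]
  have h2 : (N : ℝ) ^ 3 * Real.exp (-(2 * Real.pi * z ^ 2)) ≤ (N : ℝ) ^ 3 * E :=
    mul_le_mul_of_nonneg_left he (by positivity)
  have h3 : (1 : ℝ) ≤ (N : ℝ) ^ 2 := one_le_pow₀ hN1
  nlinarith

theorem ufn (hUSM : UsmStmt) (hUPO : UpoStmt) (hUEP : UepStmt) (hUOU : UouStmt)
    (hUNM : UnmStmt) : UfnStmt := by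
  classical
  obtain ⟨Z₀, hZ₀, hnum⟩ := hUNM
  refine ⟨80001, Z₀, by norm_num, ?_⟩
  intro Z hZ N t S hN hNZ hS
  have hZ1 : 1 ≤ Z := by omega
  have hnumZ := (hnum Z hZ N hN hNZ).1
  have hsum := hUSM.2.1 N t 0 hN
  have hmu : ∀ μ ∈ S, 1 ≤ μ := fun μ h => by
    have := (hS μ h).1
    omega
  -- step 1
  have h1 : (S.card : ℝ) * U (f N t 0) 1 1 ≤
      8 * (Z : ℝ) ^ 1000 * ∑ μ ∈ S, U (f N t 0) (2 * μ) 2 := by
    rw [Finset.mul_sum, ← nsmul_eq_mul, ← Finset.sum_const]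
    refine Finset.sum_le_sum fun μ hμ => ?_
    obtain ⟨h0, hle⟩ := hUPO (f N t 0) μ (hmu μ hμ) hsum
    refine hle.trans ?_
    apply mul_le_mul_of_nonneg_right _ h0
    have h2 : (μ : ℝ) ≤ 2 * (Z : ℝ) ^ 1000 := by exact_mod_cast (hS μ hμ).2
    linarith
  refine h1.trans (mul_le_mul_of_nonneg_left ?_ (by positivity))
  -- step 2
  have h2 : ∀ μ ∈ S, ((U (f N t 0) (2 * μ) 2 : ℝ) : ℂ) = ∑ p ∈ Bx Z N, GG N μ t p +
      ∑' p, (if p ∈ Bx Z N then 0 else GG N μ t p) := by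
    intro μ hμ
    obtain ⟨-, -, hs, he⟩ := hUEP N μ t hN (hmu μ hμ)
    rw [he]
    exact split_box hs _
  have h3 : ∀ μ ∈ S, ‖∑' p, (if p ∈ Bx Z N then 0 else GG N μ t p)‖ ≤
      80001 * (N : ℝ) ^ 2 := by
    intro μ hμ
    obtain ⟨hs0, hb, hs, -⟩ := hUEP N μ t hN (hmu μ hμ)
    obtain ⟨ho1, ho2⟩ := hUOU Z N μ hZ1 hN (hS μ hμ).1
    have hn : ∀ p : ℤ × ℤ, ‖if p ∈ Bx Z N then 0 else GG N μ t p‖ ≤
        200 * (N : ℝ) * (if p ∈ Bx Z N then 0 else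
          ga N (2 * (p.2 : ℝ)) * ga N (2 * (μ : ℝ) * (p.1 : ℝ))) := by
      intro p
      split_ifs
      · simp
      · exact hb p
    have hs1 : Summable fun p : ℤ × ℤ => ‖if p ∈ Bx Z N then 0 else GG N μ t p‖ :=
      Summable.of_nonneg_of_le (fun _ => norm_nonneg _) hn (ho1.mul_left _)
    refine (norm_tsum_le_tsum_norm hs1).trans ?_
    refine (hs1.tsum_le_tsum hn (ho1.mul_left _)).trans ?_
    rw [tsum_mul_left]
    refine (mul_le_mul_of_nonneg_left ho2 (by positivity)).trans ?_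
    exact num_bound hN hnumZ
  have h4 : ((∑ μ ∈ S, U (f N t 0) (2 * μ) 2 : ℝ) : ℂ) =
      ∑ p ∈ Bx Z N, ∑ μ ∈ S, GG N μ t p +
        ∑ μ ∈ S, ∑' p, (if p ∈ Bx Z N then 0 else GG N μ t p) := by
    rw [Complex.ofReal_sum, Finset.sum_congr rfl h2, Finset.sum_add_distrib, Finset.sum_comm]
  have h5 : ∑ μ ∈ S, U (f N t 0) (2 * μ) 2 ≤ ‖((∑ μ ∈ S, U (f N t 0) (2 * μ) 2 : ℝ) : ℂ)‖ := by
    rw [Complex.norm_real]
    exact Real.le_norm_self _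
  refine h5.trans ?_
  rw [h4]
  refine (norm_add_le _ _).trans ?_
  have h6 : ‖∑ μ ∈ S, ∑' p, (if p ∈ Bx Z N then 0 else GG N μ t p)‖ ≤
      80001 * (S.card : ℝ) * (N : ℝ) ^ 2 := by
    refine (norm_sum_le_of_le S h3).trans ?_
    rw [Finset.sum_const, nsmul_eq_mul]
    exact le_of_eq (by ring)
  have h7 : ‖∑ p ∈ Bx Z N, ∑ μ ∈ S, GG N μ t p‖ ≤
      ∑ p ∈ Bx Z N, ‖∑ μ ∈ S,
        ps (16 * t * (p.1 : ℝ) ^ 3 * (p.2 : ℝ)) (16 * t * (p.1 : ℝ) * (p.2 : ℝ) ^ 3)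
          (4 * Real.pi * (p.1 : ℝ) ^ 2 / (N : ℝ) ^ 2) μ *
          th N (48 * t * (μ : ℝ) * (p.1 : ℝ) * (p.2 : ℝ))‖ := by
    refine norm_sum_le_of_le _ fun p _ => ?_
    unfold GG
    rw [← Finset.mul_sum, norm_mul, Complex.norm_real, Real.norm_of_nonneg (ga_nonneg _ _)]
    exact mul_le_of_le_one_left (norm_nonneg _) (ga_le_one _ _)
  linarith

end Pool.Agent.K4W.H88
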